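import Pool.Agent.Lib.Nsh.Exists
import Pool.Agent.Lib.Nsh.Round
import Pool.Agent.Lib.Nsh.PFin

/-!
# MP_602ccf_lc: a polynomial-time algorithm for 13/40-approximate Nash equilibria

There is a polynomial-time algorithm that, given any positively normalized `n × n` bimatrix game
with rational entries, outputs a `0.325`-approximate Nash equilibrium (`0.325 < 1/3`).
-/

set_option autoImplicit false

open Finset

noncomputable section

namespace Pool.Agent.Results.MP_602ccf_lc.ApproxNash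

/-- An input `(n, entries)`: the `n²` entries of `A`, row by row, followed by those of `B`. -/
abbrev Game := ℕ × List ℚ

/-- Positively normalized games: `n ≥ 1`, and `2 n²` entries, all in `[0, 1]`. -/
def IsGame (w : Game) : Prop := 1 ≤ w.1 ∧ w.2.length = 2 * w.1 ^ 2 ∧ ∀ q ∈ w.2, 0 ≤ q ∧ q ≤ 1

/-- Matrix of the row player. -/
def matA (w : Game) (i j : Fin w.1) : ℝ := ((w.2.getD (i * w.1 + j) 0 : ℚ) : ℝ)

/-- Matrix of the column player. -/
def matB (w : Game) (i j : Fin w.1) : ℝ := ((w.2.getD (w.1 ^ 2 + (i * w.1 + j)) 0 : ℚ) : ℝ)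

/-- Expected payoff `xᵀ M y`. -/
def payoff {n : ℕ} (M : Fin n → Fin n → ℝ) (x y : Fin n → ℝ) : ℝ :=
  ∑ i : Fin n, ∑ j : Fin n, x i * M i j * y j

/-- `(x, y)` is an `ε`-approximate Nash equilibrium of `(A, B)`. -/
def IsApproxNash {n : ℕ} (ε : ℝ) (A B : Fin n → Fin n → ℝ) (x y : Fin n → ℝ) : Prop :=
  x ∈ stdSimplex ℝ (Fin n) ∧ y ∈ stdSimplex ℝ (Fin n) ∧
  (∀ x' ∈ stdSimplex ℝ (Fin n), payoff A x' y - ε ≤ payoff A x y) ∧
  (∀ y' ∈ stdSimplex ℝ (Fin n), payoff B x y' - ε ≤ payoff B x y)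

/-- Self-delimiting code of a list of bits. -/
def dbl (l : List Bool) : List Bool := (l.flatMap fun b => [true, b]) ++ [false]

/-- Code of an input: `n` in unary, then every entry by its sign and the binary expansions of its
numerator and denominator. -/
def encGame (w : Game) : List Bool :=
  List.replicate w.1 true ++ false :: w.2.flatMap fun a =>
    decide (a.num < 0) :: (dbl (Nat.bits a.num.natAbs) ++ dbl (Nat.bits a.den))

/-- Code of an output: two lists of fractions (numerator, denominator), in binary. -/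
def encOut (o : List (ℕ × ℕ) × List (ℕ × ℕ)) : List Bool :=
  (o.1.flatMap fun y => dbl (Nat.bits y.1) ++ dbl (Nat.bits y.2)) ++
    (o.2.flatMap fun y => dbl (Nat.bits y.1) ++ dbl (Nat.bits y.2))

/-- The strategy given by a list of fractions. -/
def strat (n : ℕ) (l : List (ℕ × ℕ)) (i : Fin n) : ℝ :=
  ((l.getD i (0, 1)).1 : ℝ) / ((l.getD i (0, 1)).2 : ℝ)

theorem isGame_getD {w : Game} (hw : IsGame w) (i : ℕ) :
    0 ≤ w.2.getD i 0 ∧ w.2.getD i 0 ≤ 1 := by
  rcases lt_or_ge i w.2.length with h | h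
  · rw [List.getD_eq_getElem _ _ h]
    exact hw.2.2 _ (List.getElem_mem h)
  · rw [List.getD_eq_default _ _ h]
    exact ⟨le_rfl, zero_le_one⟩

theorem simplex_rl {n : ℕ} {X : ℕ → ℕ} (h : 1 ≤ Nsh.tot n X) :
    (fun i : Fin n => Nsh.rl (Nsh.tot n X) X i) ∈ stdSimplex ℝ (Fin n) := by
  refine ⟨fun i => ?_, ?_⟩
  · unfold Nsh.rl
    positivity
  · have h1 := (Nsh.mix_rl h (rfl : Nsh.tot n X = Nsh.tot n X)).sum
    rw [Finset.sum_range] at h1
    exact h1

theorem payoff_eq {n : ℕ} (M : ℕ → ℕ → ℝ) (x y : ℕ → ℝ) :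
    payoff (fun i j : Fin n => M i j) (fun i => x i) (fun j => y j) = Nsh.bil n M x y := by
  unfold payoff Nsh.bil Nsh.rv
  rw [Finset.sum_range]
  refine Finset.sum_congr rfl (fun i _ => ?_)
  rw [Finset.sum_range, Finset.mul_sum]
  refine Finset.sum_congr rfl (fun j _ => ?_)
  ring

/-- extend a strategy by zero -/
def ext {n : ℕ} (x : Fin n → ℝ) (i : ℕ) : ℝ := if h : i < n then x ⟨i, h⟩ else 0

theorem ext_fin {n : ℕ} (x : Fin n → ℝ) : (fun i : Fin n => ext x i) = x := by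
  funext i
  unfold ext
  rw [dif_pos i.2]

theorem mix_ext {n : ℕ} {x : Fin n → ℝ} (hx : x ∈ stdSimplex ℝ (Fin n)) : Nsh.Mix n (ext x) where
  nn i hi := by
    unfold ext
    rw [dif_pos hi]
    exact hx.1 _
  sum := by
    rw [Finset.sum_range, ext_fin]
    exact hx.2

theorem nash_of_good {n : ℕ} {A B : ℕ → ℕ → ℝ} {ε : ℝ} {x y : ℕ → ℝ}
    (hx : (fun i : Fin n => x i) ∈ stdSimplex ℝ (Fin n))
    (hy : (fun i : Fin n => y i) ∈ stdSimplex ℝ (Fin n)) (h : Nsh.Good n A B ε x y) :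
    IsApproxNash ε (fun i j : Fin n => A i j) (fun i j : Fin n => B i j) (fun i => x i)
      (fun i => y i) := by
  refine ⟨hx, hy, fun x' hx' => ?_, fun y' hy' => ?_⟩
  · have h1 := Nsh.bil_le_of_rv_le (R := A) (y := y) (mix_ext hx') h.1
    have h2 := payoff_eq (n := n) A (ext x') y
    rw [ext_fin] at h2
    rw [h2, payoff_eq]
    linarith
  · have h1 := Nsh.bil_le_of_cv_le (R := B) (x := x) (mix_ext hy') h.2
    have h2 := payoff_eq (n := n) B x (ext y')
    rw [ext_fin] at h2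
    rw [h2, payoff_eq]
    linarith

theorem strat_map (n : ℕ) (X : ℕ → ℕ) (s : ℕ) :
    strat n ((List.range n).map fun i => (X i, s)) = fun i : Fin n => Nsh.rl s X i := by
  funext i
  unfold strat Nsh.rl
  have h1 : ((List.range n).map fun i => (X i, s)).getD (i : ℕ) (0, 1) = (X i, s) := by
    rw [List.getD_eq_getElem _ _ (by simp)]
    simp
  rw [h1]

theorem result : ∃ F : Game → List (ℕ × ℕ) × List (ℕ × ℕ),
    Nonempty (Turing.TM2ComputableInPolyTime (α := {w : Game // IsGame w}) (αΓ := Bool)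
      (βΓ := Bool) (fun w => encGame w.1) encOut (fun w => F w.1)) ∧
    ∀ w : Game, IsGame w →
      (F w).1.length = w.1 ∧ (F w).2.length = w.1 ∧
      (∀ y ∈ (F w).1, 1 ≤ y.2) ∧ (∀ y ∈ (F w).2, 1 ≤ y.2) ∧
      IsApproxNash (13 / 40) (matA w) (matB w) (strat w.1 (F w).1) (strat w.1 (F w).2) := by
  refine ⟨Nsh.sol 14, Nsh.poly_sol IsGame (fun w hw => hw.1) 14, fun w hw => ?_⟩
  have hN : (8000 : ℕ) ≤ 2 ^ 14 := by norm_num
  have h0 : ∀ i, 0 ≤ w.2.getD i 0 := fun i => (isGame_getD hw i).1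
  have h1 : ∀ i, w.2.getD i 0 ≤ 1 := fun i => (isGame_getD hw i).2
  have hpass : Nsh.pass (Nsh.gm 14 w) (2 ^ 14) (Nsh.out (Nsh.gm 14 w) (2 ^ 14) (32 * (2 ^ 14) ^ 2)).1
      (Nsh.out (Nsh.gm 14 w) (2 ^ 14) (32 * (2 ^ 14) ^ 2)).2 := by
    apply Nsh.out_pass
    exact Nsh.exists_pass hN hw.1 (fun i _ j _ => (Nsh.tab_spec 14 _ _ (h0 _) (h1 _)).1)
      (fun i _ j _ => (Nsh.tab_spec 14 _ _ (h0 _) (h1 _)).1)
  obtain ⟨h2, h3, h4⟩ := Nsh.round_good (by norm_num) h0 h1 hpass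
  refine ⟨?_, ?_, ?_, ?_, ?_⟩
  · unfold Nsh.sol
    simp
  · unfold Nsh.sol
    simp
  · intro y hy
    unfold Nsh.sol at hy
    obtain ⟨i, -, rfl⟩ := List.mem_map.1 hy
    exact h2
  · intro y hy
    unfold Nsh.sol at hy
    obtain ⟨i, -, rfl⟩ := List.mem_map.1 hy
    exact h3
  · unfold Nsh.sol
    rw [strat_map, strat_map]
    have h5 := nash_of_good (simplex_rl h2) (simplex_rl h3) h4
    have e : w.1 * w.1 = w.1 ^ 2 := by ring
    rw [e] at h5
    exact h5

end Pool.Agent.Results.MP_602ccf_lc.ApproxNash
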