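import Pool.Agent.Lib.Nvc.Fin
import Pool.Agent.Lib.Nvc.PFin
import Pool.Agent.Lib.Nvc.Cor
import Pool.Agent.Lib.Nvc.Struct
import Pool.Agent.Lib.Nwl.Red1

/-!
# MP_602ccf_lc: games whose row matrix lies in a hereditary class of 0/1 matrices

The column player's payoffs are arbitrary. If the class is not the class of all 0/1 matrices, then
for every `ε` an `ε`-approximate equilibrium can be found in polynomial time, and there is one in
which the column player uses a bounded number of columns. For the class of all 0/1 matrices the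
latter fails, and polynomial-time algorithms for every `ε` would give such algorithms for all games.
-/

set_option autoImplicit false

open Finset

noncomputable section

namespace Pool.Agent.Results.MP_602ccf_lc.OneSidedClasses

/-- An input `(n, entries)`: the `n²` entries of `A`, row by row, followed by those of `B`. -/
abbrev Game := ℕ × List ℚ

/-- Positively normalized games: `n ≥ 1`, and `2 n²` entries, all in `[0, 1]`. -/
def IsGame (w : Game) : Prop := 1 ≤ w.1 ∧ w.2.length = 2 * w.1 ^ 2 ∧ ∀ q ∈ w.2, 0 ≤ q ∧ q ≤ 1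

/-- Matrix of the row player. -/
def matA (w : Game) (i j : Fin w.1) : ℝ := ((w.2.getD (i * w.1 + j) 0 : ℚ) : ℝ)

/-- Matrix of the column player. -/
def matB (w : Game) (i j : Fin w.1) : ℝ := ((w.2.getD (w.1 ^ 2 + (i * w.1 + j)) 0 : ℚ) : ℝ)

/-- Expected payoff `xᵀ M y`. -/
def payoff {n : ℕ} (M : Fin n → Fin n → ℝ) (x y : Fin n → ℝ) : ℝ :=
  ∑ i : Fin n, ∑ j : Fin n, x i * M i j * y j

/-- `(x, y)` is an `ε`-approximate Nash equilibrium of `(A, B)`. -/
def IsApproxNash {n : ℕ} (ε : ℝ) (A B : Fin n → Fin n → ℝ) (x y : Fin n → ℝ) : Prop :=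
  x ∈ stdSimplex ℝ (Fin n) ∧ y ∈ stdSimplex ℝ (Fin n) ∧
  (∀ x' ∈ stdSimplex ℝ (Fin n), payoff A x' y - ε ≤ payoff A x y) ∧
  (∀ y' ∈ stdSimplex ℝ (Fin n), payoff B x y' - ε ≤ payoff B x y)

/-- Self-delimiting code of a list of bits. -/
def dbl (l : List Bool) : List Bool := (l.flatMap fun b => [true, b]) ++ [false]

/-- Code of an input: `n` in unary, then every entry by its sign and the binary expansions of its
numerator and denominator. -/
def encGame (w : Game) : List Bool :=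
  List.replicate w.1 true ++ false :: w.2.flatMap fun a =>
    decide (a.num < 0) :: (dbl (Nat.bits a.num.natAbs) ++ dbl (Nat.bits a.den))

/-- Code of an output: two lists of fractions (numerator, denominator), in binary. -/
def encOut (o : List (ℕ × ℕ) × List (ℕ × ℕ)) : List Bool :=
  (o.1.flatMap fun y => dbl (Nat.bits y.1) ++ dbl (Nat.bits y.2)) ++
    (o.2.flatMap fun y => dbl (Nat.bits y.1) ++ dbl (Nat.bits y.2))

/-- The strategy given by a list of fractions. -/
def strat (n : ℕ) (l : List (ℕ × ℕ)) (i : Fin n) : ℝ :=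
  ((l.getD i (0, 1)).1 : ℝ) / ((l.getD i (0, 1)).2 : ℝ)

/-- The output `o` consists of two lists of `n` fractions, which form an `ε`-approximate Nash
equilibrium of the game `w`. -/
def Sol (ε : ℝ) (w : Game) (o : List (ℕ × ℕ) × List (ℕ × ℕ)) : Prop :=
  o.1.length = w.1 ∧ o.2.length = w.1 ∧
    IsApproxNash ε (matA w) (matB w) (strat w.1 o.1) (strat w.1 o.2)

/-- For games with the property `𝒢`, `ε`-approximate Nash equilibria are computable in polynomial
time. -/
def Easy (ε : ℝ) (𝒢 : Game → Prop) : Prop :=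
  ∃ F : Game → List (ℕ × ℕ) × List (ℕ × ℕ),
    Nonempty (Turing.TM2ComputableInPolyTime (α := {w : Game // IsGame w ∧ 𝒢 w}) (αΓ := Bool)
      (βΓ := Bool) (fun w => encGame w.1) encOut (fun w => F w.1)) ∧
    ∀ w : Game, IsGame w → 𝒢 w → Sol ε w (F w)

/-- number of pure strategies used by `y` -/
def supp {n : ℕ} (y : Fin n → ℝ) : ℕ := (univ.filter (fun j => y j ≠ 0)).card

/-- A class of square 0/1 matrices of all sizes. -/
abbrev MatClass := ∀ n : ℕ, Set (Fin n → Fin n → Bool)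

/-- Closed under passing to (square) submatrices; rows and columns may be permuted and repeated. -/
def Hereditary (𝒜 : MatClass) : Prop :=
  ∀ (m n : ℕ) (σ τ : Fin m → Fin n) (M : Fin n → Fin n → Bool), M ∈ 𝒜 n →
    (fun i j => M (σ i) (τ j)) ∈ 𝒜 m

/-- Some 0/1 matrix is not in the class. -/
def Proper (𝒜 : MatClass) : Prop := ∃ (n : ℕ) (M : Fin n → Fin n → Bool), M ∉ 𝒜 n

/-- the real matrix with the entries `0` and `1` -/
def real {n : ℕ} (M : Fin n → Fin n → Bool) (i j : Fin n) : ℝ := if M i j = true then 1 else 0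

theorem isGame_getD {w : Game} (hw : IsGame w) (i : ℕ) :
    0 ≤ w.2.getD i 0 ∧ w.2.getD i 0 ≤ 1 := by
  rcases lt_or_ge i w.2.length with h | h
  · rw [List.getD_eq_getElem _ _ h]
    exact hw.2.2 _ (List.getElem_mem h)
  · rw [List.getD_eq_default _ _ h]
    exact ⟨le_rfl, zero_le_one⟩

theorem simplex_rl {n : ℕ} {X : ℕ → ℕ} (h : 1 ≤ Nsh.tot n X) :
    (fun i : Fin n => Nsh.rl (Nsh.tot n X) X i) ∈ stdSimplex ℝ (Fin n) := by
  refine ⟨fun i => ?_, ?_⟩
  · unfold Nsh.rl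
    positivity
  · have h1 := (Nsh.mix_rl h (rfl : Nsh.tot n X = Nsh.tot n X)).sum
    rw [Finset.sum_range] at h1
    exact h1

theorem payoff_eq {n : ℕ} (M : ℕ → ℕ → ℝ) (x y : ℕ → ℝ) :
    payoff (fun i j : Fin n => M i j) (fun i => x i) (fun j => y j) = Nsh.bil n M x y := by
  unfold payoff Nsh.bil Nsh.rv
  rw [Finset.sum_range]
  refine Finset.sum_congr rfl (fun i _ => ?_)
  rw [Finset.sum_range, Finset.mul_sum]
  refine Finset.sum_congr rfl (fun j _ => ?_)
  ring

/-- extend a strategy by zero -/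
def ext {n : ℕ} (x : Fin n → ℝ) (i : ℕ) : ℝ := if h : i < n then x ⟨i, h⟩ else 0

theorem ext_fin {n : ℕ} (x : Fin n → ℝ) : (fun i : Fin n => ext x i) = x := by
  funext i
  unfold ext
  rw [dif_pos i.2]

theorem mix_ext {n : ℕ} {x : Fin n → ℝ} (hx : x ∈ stdSimplex ℝ (Fin n)) : Nsh.Mix n (ext x) where
  nn i hi := by
    unfold ext
    rw [dif_pos hi]
    exact hx.1 _
  sum := by
    rw [Finset.sum_range, ext_fin]
    exact hx.2

theorem nash_of_good {n : ℕ} {A B : ℕ → ℕ → ℝ} {ε : ℝ} {x y : ℕ → ℝ}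
    (hx : (fun i : Fin n => x i) ∈ stdSimplex ℝ (Fin n))
    (hy : (fun i : Fin n => y i) ∈ stdSimplex ℝ (Fin n)) (h : Nsh.Good n A B ε x y) :
    IsApproxNash ε (fun i j : Fin n => A i j) (fun i j : Fin n => B i j) (fun i => x i)
      (fun i => y i) := by
  refine ⟨hx, hy, fun x' hx' => ?_, fun y' hy' => ?_⟩
  · have h1 := Nsh.bil_le_of_rv_le (R := A) (y := y) (mix_ext hx') h.1
    have h2 := payoff_eq (n := n) A (ext x') y
    rw [ext_fin] at h2
    rw [h2, payoff_eq]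
    linarith
  · have h1 := Nsh.bil_le_of_cv_le (R := B) (x := x) (mix_ext hy') h.2
    have h2 := payoff_eq (n := n) B x (ext y')
    rw [ext_fin] at h2
    rw [h2, payoff_eq]
    linarith

theorem strat_map (n : ℕ) (X : ℕ → ℕ) (s : ℕ) :
    strat n ((List.range n).map fun i => (X i, s)) = fun i : Fin n => Nsh.rl s X i := by
  funext i
  unfold strat Nsh.rl
  have h1 : ((List.range n).map fun i => (X i, s)).getD (i : ℕ) (0, 1) = (X i, s) := by
    rw [List.getD_eq_getElem _ _ (by simp)]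
    simp
  rw [h1]

theorem IsApproxNash.mono {n : ℕ} {ε ε' : ℝ} (h : ε ≤ ε') {A B : Fin n → Fin n → ℝ}
    {x y : Fin n → ℝ} (hn : IsApproxNash ε A B x y) : IsApproxNash ε' A B x y :=
  ⟨hn.1, hn.2.1, fun x' hx' => by linarith [hn.2.2.1 x' hx'],
    fun y' hy' => by linarith [hn.2.2.2 y' hy']⟩

/-- the games treated by the algorithm number `q` with the bound `d` -/
def Cls (q d : ℕ) (w : Game) : Prop :=
  ∃ α β : ℝ, 0 ≤ α ∧ 0 ≤ β ∧ α + β = 1 ∧
    Nvc.FatDim (1 / (192 * (2 ^ q) ^ 2)) (fun i j => α * matA w i j + β * matB w i j) d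

theorem easy_cls (q d : ℕ) : Easy (9 / 2 ^ q) (Cls q d) := by
  obtain ⟨k, hk, h⟩ := Nvc.main q d
  refine ⟨Nvc.sol q k, Nvc.poly_sol (fun w => IsGame w ∧ Cls q d w) (fun w hw => hw.1.1) q k,
    fun w hw hc => ?_⟩
  obtain ⟨α, β, hα, hβ, hαβ, hF⟩ := hc
  have e : w.1 * w.1 = w.1 ^ 2 := by ring
  have h0 : ∀ i, 0 ≤ w.2.getD i 0 := fun i => (isGame_getD hw i).1
  have h1 : ∀ i, w.2.getD i 0 ≤ 1 := fun i => (isGame_getD hw i).2
  have hm := h w hw.1 h0 h1 α β hα hβ hαβ (by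
    rw [e]
    exact hF)
  obtain ⟨h2, h3, h4⟩ := hm
  unfold Sol Nvc.sol
  refine ⟨by simp, by simp, ?_⟩
  rw [strat_map, strat_map]
  have h5 := nash_of_good (simplex_rl h2) (simplex_rl h3) h4
  rw [e] at h5
  exact h5

theorem Easy.mono {ε ε' : ℝ} {𝒢 𝒢' : Game → Prop} (h : Easy ε 𝒢) (hε : ε ≤ ε')
    (h𝒢 : ∀ w, IsGame w → 𝒢' w → 𝒢 w) : Easy ε' 𝒢' := by
  obtain ⟨F, ⟨⟨⟨tm, e0, e1⟩, time, hout⟩⟩, hF⟩ := h
  refine ⟨F, ⟨⟨⟨tm, e0, e1⟩, time, fun x => ?_⟩⟩, fun w hw hg => ?_⟩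
  · exact hout ⟨x.1, x.2.1, h𝒢 _ x.2.1 x.2.2⟩
  · have h1 := hF w hw (h𝒢 w hw hg)
    exact ⟨h1.1, h1.2.1, h1.2.2.mono hε⟩

theorem exists_q {ε : ℝ} (hε : 0 < ε) : ∃ q : ℕ, 9 / 2 ^ q ≤ ε := by
  obtain ⟨q, hq⟩ := pow_unbounded_of_one_lt (9 / ε) (by norm_num : (1 : ℝ) < 2)
  refine ⟨q, ?_⟩
  rw [div_le_iff₀ (by positivity)]
  rw [div_lt_iff₀ hε] at hq
  linarith

theorem avoids_fat {n m : ℕ} {M : Fin n → Fin n → Bool} {P : Fin m → Fin m → Bool}
    {𝒜 : MatClass} (h𝒜 : Hereditary 𝒜) (hM : M ∈ 𝒜 n) (hP : P ∉ 𝒜 m) {g : ℝ} (hg : 0 < g) :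
    Nvc.FatDim g (real M) (m + m) := by
  refine Nvc.free_dim (P := P) (fun i j => ?_) (fun h => ?_) hg
  · unfold real
    by_cases h : M i j = true
    · right
      rw [if_pos h]
    · left
      rw [if_neg h]
  · obtain ⟨σ, τ, -, -, h⟩ := h
    refine hP ?_
    have e : P = fun i j => M (σ i) (τ j) := by
      funext p q
      have h1 := h p q
      unfold real at h1
      cases h2 : P p q <;> cases h3 : M (σ p) (τ q) <;> simp [h2, h3] at h1 ⊢
    rw [e]
    exact h𝒜 m n σ τ M hM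

theorem result (𝒜 : MatClass) (h𝒜 : Hereditary 𝒜) :
    -- polynomial-time algorithms for every `ε`, if the class is proper
    (Proper 𝒜 → ∀ ε : ℝ, 0 < ε → Easy ε (fun w => ∃ M ∈ 𝒜 w.1, matA w = real M)) ∧
    -- otherwise such algorithms would give algorithms for all games
    (¬ Proper 𝒜 → ∀ ε : ℝ, 0 < ε → Easy (ε / 5) (fun w => ∃ M ∈ 𝒜 w.1, matA w = real M) →
      Easy ε (fun _ => True)) ∧
    -- equilibria with a bounded number of columns, exactly if the class is proper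
    (Proper 𝒜 ↔ ∀ ε : ℝ, 0 < ε → ∃ k : ℕ, ∀ n : ℕ, 1 ≤ n → ∀ M ∈ 𝒜 n, ∀ B : Fin n → Fin n → ℝ,
      (∀ i j, 0 ≤ B i j ∧ B i j ≤ 1) → ∃ x y, IsApproxNash ε (real M) B x y ∧ supp y ≤ k) := by
  refine ⟨fun ⟨m, P, hP⟩ ε hε => ?_, fun hno ε hε h => ?_, fun ⟨m, P, hP⟩ ε hε => ?_, fun h => ?_⟩
  · obtain ⟨q, hq⟩ := exists_q hε
    refine (easy_cls q (m + m)).mono hq (fun w _ hw => ⟨1, 0, zero_le_one, le_rfl, by norm_num, ?_⟩)
    obtain ⟨M, hM, e⟩ := hw
    have e' : (fun i j => 1 * matA w i j + 0 * matB w i j) = real M := by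
      rw [← e]
      funext i j
      ring
    rw [e']
    exact avoids_fat h𝒜 hM hP (by positivity)
  · unfold Proper at hno
    push Not at hno
    refine Nwl.red1 hε (h.mono le_rfl (fun w _ hw => ?_))
    refine ⟨fun i j => decide (matA w i j = 1), hno _ _, ?_⟩
    funext i j
    unfold real
    rcases (show matA w i j = 0 ∨ matA w i j = 1 from hw i j) with h1 | h1 <;> simp [h1]
  · obtain ⟨k, _, h⟩ := Nvc.struct (m + m) (show 0 < ε / 48 by positivity)
    refine ⟨k, fun n hn M hM B hB => ?_⟩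
    have hA' : ∀ i j, 0 ≤ real M i j ∧ real M i j ≤ 1 := fun i j => by
      unfold real
      split_ifs <;> norm_num
    obtain ⟨x, y, hxy, hs⟩ := h n hn (real M) B hA' hB (avoids_fat h𝒜 hM hP (by positivity))
    refine ⟨x, y, ?_, hs⟩
    have e : 48 * (ε / 48) = ε := by ring
    rw [e] at hxy
    exact hxy
  · by_contra hno
    unfold Proper at hno
    push Not at hno
    obtain ⟨k, hk⟩ := h (1 / 5) (by norm_num)
    obtain ⟨n, A, B, hn, hA, hB, hl⟩ := Nvc.lower k
    have e : real (fun i j => decide (A i j = 1)) = A := by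
      funext i j
      unfold real
      rcases hA i j with h | h <;> simp [h]
    obtain ⟨x, y, hxy, hs⟩ := hk n hn (fun i j => decide (A i j = 1)) (hno n _) B (fun i j => by
      rcases hB i j with h | h <;> rw [h] <;> norm_num)
    rw [e] at hxy
    exact absurd hs (not_le.2 (hl x y hxy))

end Pool.Agent.Results.MP_602ccf_lc.OneSidedClasses
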