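import Pool.Agent.Lib.Nwl.Red2

/-!
# MP_602ccf_lc: approximate equilibria of win-lose games

For every constant accuracy, randomised polynomial-time algorithms for win-lose games (in which at
most one player wins) give randomised polynomial-time algorithms for all games.
-/

set_option autoImplicit false

open Finset

noncomputable section

namespace Pool.Agent.Results.MP_602ccf_lc.WinLose

/-- An input `(n, entries)`: the `n²` entries of `A`, row by row, followed by those of `B`. -/
abbrev Game := ℕ × List ℚ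

/-- Positively normalized games: `n ≥ 1`, and `2 n²` entries, all in `[0, 1]`. -/
def IsGame (w : Game) : Prop := 1 ≤ w.1 ∧ w.2.length = 2 * w.1 ^ 2 ∧ ∀ q ∈ w.2, 0 ≤ q ∧ q ≤ 1

/-- Matrix of the row player. -/
def matA (w : Game) (i j : Fin w.1) : ℝ := ((w.2.getD (i * w.1 + j) 0 : ℚ) : ℝ)

/-- Matrix of the column player. -/
def matB (w : Game) (i j : Fin w.1) : ℝ := ((w.2.getD (w.1 ^ 2 + (i * w.1 + j)) 0 : ℚ) : ℝ)

/-- Expected payoff `xᵀ M y`. -/
def payoff {n : ℕ} (M : Fin n → Fin n → ℝ) (x y : Fin n → ℝ) : ℝ :=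
  ∑ i : Fin n, ∑ j : Fin n, x i * M i j * y j

/-- `(x, y)` is an `ε`-approximate Nash equilibrium of `(A, B)`. -/
def IsApproxNash {n : ℕ} (ε : ℝ) (A B : Fin n → Fin n → ℝ) (x y : Fin n → ℝ) : Prop :=
  x ∈ stdSimplex ℝ (Fin n) ∧ y ∈ stdSimplex ℝ (Fin n) ∧
  (∀ x' ∈ stdSimplex ℝ (Fin n), payoff A x' y - ε ≤ payoff A x y) ∧
  (∀ y' ∈ stdSimplex ℝ (Fin n), payoff B x y' - ε ≤ payoff B x y)

/-- Self-delimiting code of a list of bits. -/
def dbl (l : List Bool) : List Bool := (l.flatMap fun b => [true, b]) ++ [false]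

/-- Code of an input: `n` in unary, then every entry by its sign and the binary expansions of its
numerator and denominator. -/
def encGame (w : Game) : List Bool :=
  List.replicate w.1 true ++ false :: w.2.flatMap fun a =>
    decide (a.num < 0) :: (dbl (Nat.bits a.num.natAbs) ++ dbl (Nat.bits a.den))

/-- Code of an output: two lists of fractions (numerator, denominator), in binary. -/
def encOut (o : List (ℕ × ℕ) × List (ℕ × ℕ)) : List Bool :=
  (o.1.flatMap fun y => dbl (Nat.bits y.1) ++ dbl (Nat.bits y.2)) ++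
    (o.2.flatMap fun y => dbl (Nat.bits y.1) ++ dbl (Nat.bits y.2))

/-- The strategy given by a list of fractions. -/
def strat (n : ℕ) (l : List (ℕ × ℕ)) (i : Fin n) : ℝ :=
  ((l.getD i (0, 1)).1 : ℝ) / ((l.getD i (0, 1)).2 : ℝ)

/-- The output `o` consists of two lists of `n` fractions, which form an `ε`-approximate Nash
equilibrium of the game `w`. -/
def Sol (ε : ℝ) (w : Game) (o : List (ℕ × ℕ) × List (ℕ × ℕ)) : Prop :=
  o.1.length = w.1 ∧ o.2.length = w.1 ∧
    IsApproxNash ε (matA w) (matB w) (strat w.1 o.1) (strat w.1 o.2)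

/-- For games with the property `𝒢`, `ε`-approximate Nash equilibria are computable in randomised
polynomial time: the algorithm `F` gets the game `w` and `m (length of the code of w)` random bits
(`m` a polynomial) and is successful with probability at least `c`, a positive constant. -/
def REasy (ε : ℝ) (𝒢 : Game → Prop) : Prop :=
  ∃ (m : Polynomial ℕ) (F : Game → List Bool → List (ℕ × ℕ) × List (ℕ × ℕ)) (c : ℝ),
    Nonempty (Turing.TM2ComputableInPolyTime
      (α := {x : Game × List Bool //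
        (IsGame x.1 ∧ 𝒢 x.1) ∧ x.2.length = m.eval (encGame x.1).length})
      (αΓ := Bool) (βΓ := Bool) (fun x => encGame x.1.1 ++ x.1.2) encOut
      (fun x => F x.1.1 x.1.2)) ∧ 0 < c ∧
    ∀ w : Game, IsGame w → 𝒢 w → c * 2 ^ m.eval (encGame w).length ≤
      Nat.card {r : Fin (m.eval (encGame w).length) → Bool // Sol ε w (F w (List.ofFn r))}

/-- Win-lose games (all payoffs are `0` or `1`) in which at most one player wins. -/
def WinLose (w : Game) : Prop := ∀ i j, (matA w i j = 0 ∧ matB w i j = 0) ∨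
  (matA w i j = 1 ∧ matB w i j = 0) ∨ (matA w i j = 0 ∧ matB w i j = 1)

theorem REasy.mono {ε ε' : ℝ} {𝒢 𝒢' : Game → Prop} (h : REasy ε 𝒢) (hε : ε ≤ ε')
    (h𝒢 : ∀ w, IsGame w → 𝒢' w → 𝒢 w) : REasy ε' 𝒢' := by
  obtain ⟨m, F, c, ⟨⟨⟨tm, e0, e1⟩, time, hout⟩⟩, hc, hF⟩ := h
  refine ⟨m, F, c, ⟨⟨⟨tm, e0, e1⟩, time, fun x => ?_⟩⟩, hc, fun w hw hg => ?_⟩
  · exact hout ⟨x.1, ⟨x.2.1.1, h𝒢 _ x.2.1.1 x.2.1.2⟩, x.2.2⟩
  · refine (hF w hw (h𝒢 w hw hg)).trans ?_
    have h1 : Nat.card {r : Fin (m.eval (encGame w).length) → Bool // Sol ε w (F w (List.ofFn r))} ≤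
        Nat.card {r : Fin (m.eval (encGame w).length) → Bool //
          Sol ε' w (F w (List.ofFn r))} := by
      refine Nat.card_le_card_of_injective (fun r => ⟨r.1, r.2.1, r.2.2.1, r.2.2.2.1, r.2.2.2.2.1,
        fun x' hx' => ?_, fun y' hy' => ?_⟩) ?_
      · have h2 := r.2.2.2.2.2.1 x' hx'
        linarith
      · have h2 := r.2.2.2.2.2.2 y' hy'
        linarith
      · intro r r' hrr
        simp only [Subtype.mk.injEq] at hrr
        exact Subtype.ext hrr
    exact_mod_cast h1

theorem result :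
    -- for every accuracy `ε`
    (∀ ε : ℝ, 0 < ε → ε ≤ 1 → REasy (ε ^ 2 / 2 ^ 18) WinLose → REasy ε (fun _ => True)) ∧
    -- so the question for randomised algorithms is the same for win-lose games
    ((∀ ε : ℝ, 0 < ε → REasy ε (fun _ => True)) ↔ ∀ ε : ℝ, 0 < ε → REasy ε WinLose) := by
  have key : ∀ ε : ℝ, 0 < ε → ε ≤ 1 → REasy (ε ^ 2 / 2 ^ 18) WinLose → REasy ε (fun _ => True) :=
    fun ε h0 h1 h => Nwl.red2 h0 h1 h
  refine ⟨key, fun h ε hε => (h ε hε).mono le_rfl (fun _ _ _ => trivial), fun h ε hε => ?_⟩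
  refine (key (min ε 1) (lt_min hε one_pos) (min_le_right _ _) (h _ ?_)).mono (min_le_left _ _)
    (fun _ _ _ => trivial)
  have : 0 < min ε 1 := lt_min hε one_pos
  positivity

end Pool.Agent.Results.MP_602ccf_lc.WinLose
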